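import Mathlib

set_option autoImplicit false

/-!
# MP_8c6834_co: induced poset saturation numbers of hypergrids are not monotone

Let `P` be the poset on `{0, …, 5}` with the covering relations `0 < 1 < 4`, `0 < 3`, `0 < 5`,
`2 < 3`.  It has exactly four induced copies in `[4]²`, and this forces every induced `P`-saturated
family of `[4]²` to have at least `14` elements.  There are induced `P`-saturated families with `13`
elements in `[5]²` and in `[4]³`.
-/

namespace Pool.Agent.Results.MP_8c6834_co.NotMonotone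

/-- The hypergrid `[t]^n` with the coordinatewise order. -/
abbrev Grid (n t : ℕ) := Fin n → Fin t

/-- The family `F` contains an induced copy of `P`. -/
def HasCopy (P : Type) [PartialOrder P] {n t : ℕ} (F : Finset (Grid n t)) : Prop :=
  ∃ φ : P ↪o Grid n t, ∀ x, φ x ∈ F

/-- The family `F` is induced `P`-saturated. -/
def IsSaturated (P : Type) [PartialOrder P] {n t : ℕ} (F : Finset (Grid n t)) : Prop :=
  ¬ HasCopy P F ∧ ∀ f, f ∉ F → HasCopy P (insert f F)

/-- The induced saturation number `sat* ([t]^n, P)`: the minimum size of an induced `P`-saturated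
family in `[t]^n`. -/
noncomputable def satStar (P : Type) [PartialOrder P] (n t : ℕ) : ℕ :=
  sInf {m | ∃ F : Finset (Grid n t), IsSaturated P F ∧ F.card = m}

/-! ## The poset -/

/-- the order relation of the poset -/
def pm (i j : ℕ) : Bool :=
  i == j || (i == 0 && j == 1) || (i == 0 && j == 3) || (i == 0 && j == 4) || (i == 0 && j == 5) ||
    (i == 1 && j == 4) || (i == 2 && j == 3)

/-- the six-element poset `0 < 1 < 4`, `0 < 3`, `0 < 5`, `2 < 3` -/
structure Pt : Type where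
  /-- the index of the point -/
  val : Fin 6

instance : PartialOrder Pt where
  le a b := pm a.val b.val = true
  le_refl a := by
    have h : ∀ i : Fin 6, pm i i = true := by decide
    exact h a.val
  le_trans a b c := by
    have h : ∀ i j k : Fin 6, pm i j = true → pm j k = true → pm i k = true := by decide
    exact h a.val b.val c.val
  le_antisymm a b hab hba := by
    have h : ∀ i j : Fin 6, pm i j = true → pm j i = true → i = j := by decide
    cases a
    cases b
    congr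
    exact h _ _ hab hba

theorem pt_le (a b : Pt) : a ≤ b ↔ pm a.val b.val = true := Iff.rfl

instance : Finite Pt :=
  Finite.of_injective Pt.val fun a b h => by cases a; cases b; congr

/-! ## A search for induced copies -/

/-- can the list `l = [x_{i-1}, …, x_0]` be extended by `x`? -/
def okx (leb : ℕ → ℕ → Bool) (x : ℕ) : ℕ → List ℕ → Bool
  | _, [] => true
  | i, y :: l => (leb y x == pm l.length i) && (leb x y == pm i l.length) && okx leb x i l

/-- all partial copies `[x_{i-1}, …, x_0]` with values in `L` -/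
def run (leb : ℕ → ℕ → Bool) (L : List ℕ) : ℕ → List (List ℕ)
  | 0 => [[]]
  | i + 1 => (run leb L i).flatMap fun l => (L.filter fun x => okx leb x i l).map fun x => x :: l

/-- the list `[φ (i-1), …, φ 0]` -/
def lst (φ : ℕ → ℕ) : ℕ → List ℕ
  | 0 => []
  | i + 1 => φ i :: lst φ i

theorem length_lst (φ : ℕ → ℕ) (i : ℕ) : (lst φ i).length = i := by
  induction i with
  | zero => rfl
  | succ i ih => simp [lst, ih]

theorem mem_lst (φ : ℕ → ℕ) (i x : ℕ) : x ∈ lst φ i ↔ ∃ j < i, φ j = x := by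
  induction i with
  | zero => simp [lst]
  | succ i ih =>
    rw [lst, List.mem_cons, ih]
    constructor
    · rintro (rfl | ⟨j, hj, rfl⟩)
      · exact ⟨i, by omega, rfl⟩
      · exact ⟨j, by omega, rfl⟩
    · rintro ⟨j, hj, rfl⟩
      rcases Nat.lt_succ_iff_lt_or_eq.mp hj with h | h
      · exact Or.inr ⟨j, h, rfl⟩
      · exact Or.inl (by rw [h])

theorem okx_lst (leb : ℕ → ℕ → Bool) (φ : ℕ → ℕ) (i : ℕ) (hi : i < 6)
    (h : ∀ a < 6, ∀ b < 6, leb (φ a) (φ b) = pm a b) (k : ℕ) (hk : k ≤ i) :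
    okx leb (φ i) i (lst φ k) = true := by
  induction k with
  | zero => rfl
  | succ k ih =>
    rw [lst, okx, length_lst, h k (by omega) i hi, h i hi k (by omega), ih (by omega)]
    simp

theorem lst_mem_run (leb : ℕ → ℕ → Bool) (L : List ℕ) (φ : ℕ → ℕ) (hL : ∀ a < 6, φ a ∈ L)
    (h : ∀ a < 6, ∀ b < 6, leb (φ a) (φ b) = pm a b) (i : ℕ) (hi : i ≤ 6) :
    lst φ i ∈ run leb L i := by
  induction i with
  | zero => simp [lst, run]
  | succ i ih =>
    rw [lst, run, List.mem_flatMap]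
    refine ⟨lst φ i, ih (by omega), ?_⟩
    rw [List.mem_map]
    refine ⟨φ i, ?_, rfl⟩
    rw [List.mem_filter]
    exact ⟨hL i (by omega), okx_lst leb φ i (by omega) h i le_rfl⟩

section code

variable {n t : ℕ} (enc : Grid n t → ℕ) (leb : ℕ → ℕ → Bool)

theorem copy_codes (hle : ∀ x y, x ≤ y ↔ leb (enc x) (enc y) = true) (φ : Pt ↪o Grid n t) :
    ∃ ψ : ℕ → ℕ, (∀ i : Fin 6, ψ i = enc (φ ⟨i⟩)) ∧
      ∀ a < 6, ∀ b < 6, leb (ψ a) (ψ b) = pm a b := by
  refine ⟨fun a => if h : a < 6 then enc (φ ⟨⟨a, h⟩⟩) else 0, fun i => ?_, fun a ha b hb => ?_⟩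
  · simp
  · simp only [ha, hb, dif_pos]
    rw [Bool.eq_iff_iff, ← hle, φ.le_iff_le, pt_le]

theorem not_hasCopy (hle : ∀ x y, x ≤ y ↔ leb (enc x) (enc y) = true) (F : Finset (Grid n t))
    (L : List ℕ) (hF : ∀ x ∈ F, enc x ∈ L) (hrun : run leb L 6 = []) : ¬ HasCopy Pt F := by
  rintro ⟨φ, hφ⟩
  obtain ⟨ψ, h1, h2⟩ := copy_codes enc leb hle φ
  have h3 := lst_mem_run leb L ψ (fun a ha => by
    have := h1 ⟨a, ha⟩
    simp only at this
    rw [this]
    exact hF _ (hφ _)) h2 6 le_rfl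
  rw [hrun] at h3
  exact absurd h3 (List.not_mem_nil)

/-- the list of the codes of a copy -/
def valid (l : List ℕ) : Bool :=
  l.length == 6 && (List.range 6).all fun a => (List.range 6).all fun b =>
    leb (l.getD a 0) (l.getD b 0) == pm a b

theorem hasCopy_of_valid (hle : ∀ x y, x ≤ y ↔ leb (enc x) (enc y) = true) (G : Finset (Grid n t))
    (l : List ℕ) (hl : valid leb l = true) (hG : ∀ c ∈ l, ∃ x ∈ G, enc x = c) : HasCopy Pt G := by
  unfold valid at hl
  rw [Bool.and_eq_true, beq_iff_eq, List.all_eq_true] at hl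
  obtain ⟨hlen, hval⟩ := hl
  have hmem : ∀ i : Fin 6, ∃ x ∈ G, enc x = l.getD i 0 := by
    intro i
    apply hG
    rw [List.getD_eq_getElem l 0 (by rw [hlen]; exact i.2)]
    exact List.getElem_mem _
  choose f hfG hf using hmem
  have hiff : ∀ a b : Pt, f a.val ≤ f b.val ↔ a ≤ b := by
    intro a b
    rw [hle, hf, hf, pt_le]
    have h1 := hval a.val (List.mem_range.mpr a.val.2)
    rw [List.all_eq_true] at h1
    have h2 := h1 b.val (List.mem_range.mpr b.val.2)
    rw [beq_iff_eq] at h2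
    rw [h2]
  exact ⟨OrderEmbedding.ofMapLEIff (fun a : Pt => f a.val) hiff, fun a => hfG a.val⟩

/-- a family given by the list `L` of its codes, with a table `W` of copies -/
theorem saturated_of_table (hle : ∀ x y, x ≤ y ↔ leb (enc x) (enc y) = true)
    (hsurj : ∀ c < t ^ n, ∃ x, enc x = c) (hlt : ∀ x, enc x < t ^ n)
    (F : Finset (Grid n t)) (L : List ℕ) (hF : ∀ x, x ∈ F ↔ enc x ∈ L)
    (hrun : run leb L 6 = []) (W : List (List ℕ))
    (hW : ∀ c < t ^ n, c ∈ L ∨ (valid leb (W.getD c []) = true ∧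
      ∀ d ∈ W.getD c [], d < t ^ n ∧ (d = c ∨ d ∈ L))) : IsSaturated Pt F := by
  refine ⟨not_hasCopy enc leb hle F L (fun x hx => (hF x).mp hx) hrun, fun f hf => ?_⟩
  rcases hW (enc f) (hlt f) with h | ⟨h1, h2⟩
  · exact absurd ((hF f).mpr h) hf
  · refine hasCopy_of_valid enc leb hle _ _ h1 fun d hd => ?_
    obtain ⟨h3, h4⟩ := h2 d hd
    rcases h4 with rfl | h4
    · exact ⟨f, Finset.mem_insert_self _ _, rfl⟩
    · obtain ⟨x, rfl⟩ := hsurj d h3
      exact ⟨x, Finset.mem_insert_of_mem ((hF x).mpr h4), rfl⟩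

end code

/-! ## The planar grids -/

/-- the code of an element of `[t]²` -/
def enc2 {t : ℕ} (x : Grid 2 t) : ℕ := x 0 + t * x 1

/-- the order on the codes -/
def leb2 (t c d : ℕ) : Bool := decide (c % t ≤ d % t) && decide (c / t ≤ d / t)

theorem enc2_mod {t : ℕ} (x : Grid 2 t) : enc2 x % t = x 0 := by
  rw [enc2, Nat.add_mul_mod_self_left, Nat.mod_eq_of_lt (x 0).2]

theorem enc2_div {t : ℕ} (x : Grid 2 t) : enc2 x / t = x 1 := by
  have ht : 0 < t := (Nat.zero_le _).trans_lt (x 0).2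
  rw [enc2, Nat.add_mul_div_left _ _ ht, Nat.div_eq_of_lt (x 0).2, zero_add]

theorem enc2_le {t : ℕ} (x y : Grid 2 t) : x ≤ y ↔ leb2 t (enc2 x) (enc2 y) = true := by
  rw [leb2, enc2_mod, enc2_mod, enc2_div, enc2_div, Bool.and_eq_true, decide_eq_true_iff,
    decide_eq_true_iff, Pi.le_def, Fin.forall_fin_two, Fin.le_def, Fin.le_def]

theorem enc2_inj {t : ℕ} : Function.Injective (enc2 : Grid 2 t → ℕ) := by
  intro x y h
  have h1 : (x 0 : ℕ) = y 0 := by rw [← enc2_mod, ← enc2_mod, h]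
  have h2 : (x 1 : ℕ) = y 1 := by rw [← enc2_div, ← enc2_div, h]
  funext i
  match i with
  | 0 => exact Fin.ext h1
  | 1 => exact Fin.ext h2

theorem enc2_lt {t : ℕ} (x : Grid 2 t) : enc2 x < t ^ 2 := by
  have h0 := (x 0).2
  have h1 := (x 1).2
  rw [enc2, pow_two]
  calc (x 0 : ℕ) + t * x 1 < t + t * x 1 := by omega
    _ = t * (x 1 + 1) := by ring
    _ ≤ t * t := Nat.mul_le_mul_left t h1

theorem enc2_surj {t : ℕ} (c : ℕ) (hc : c < t ^ 2) : ∃ x : Grid 2 t, enc2 x = c := by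
  have ht : 0 < t := by
    rcases Nat.eq_zero_or_pos t with rfl | h
    · simp at hc
    · exact h
  refine ⟨![⟨c % t, Nat.mod_lt _ ht⟩, ⟨c / t, ?_⟩], ?_⟩
  · rw [Nat.div_lt_iff_lt_mul ht, ← pow_two]
    exact hc
  · rw [enc2]
    simp [Nat.mod_add_div]

/-! ### The grid `[4]²` -/

/-- the four copies of the poset in `[4]²` -/
def Cs : List (Finset ℕ) :=
  [{3, 4, 7, 9, 10, 12}, {3, 4, 7, 10, 12, 13}, {1, 3, 6, 10, 12, 13}, {1, 3, 7, 10, 12, 13}]

theorem run4 : ∀ l ∈ run (leb2 4) (List.range 16) 6, l.toFinset ∈ Cs := by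
  decide +kernel

theorem copy4 (φ : Pt ↪o Grid 2 4) :
    ∃ C ∈ Cs, ∀ c, c ∈ C ↔ ∃ p, enc2 (φ p) = c := by
  obtain ⟨ψ, h1, h2⟩ := copy_codes enc2 (leb2 4) enc2_le φ
  have h3 := lst_mem_run (leb2 4) (List.range 16) ψ (fun a ha => by
    have := h1 ⟨a, ha⟩
    simp only at this
    rw [this, List.mem_range]
    exact enc2_lt _) h2 6 le_rfl
  refine ⟨_, run4 _ h3, fun c => ?_⟩
  rw [List.mem_toFinset, mem_lst]
  constructor
  · rintro ⟨j, hj, rfl⟩
    exact ⟨⟨⟨j, hj⟩⟩, (h1 ⟨j, hj⟩).symm⟩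
  · rintro ⟨⟨i⟩, rfl⟩
    exact ⟨i, i.2, h1 i⟩

/-- sets in which every element is private for one of the four copies -/
theorem card_private : ∀ U ∈ ({1, 3, 4, 6, 7, 9, 10, 12, 13} : Finset ℕ).powerset,
    (∀ u ∈ U, ∃ C ∈ Cs, u ∈ C ∧ ∀ c ∈ C, c ∈ U → c = u) → U.card ≤ 2 := by
  decide +kernel

theorem Cs_subset : ∀ C ∈ Cs, C ⊆ ({1, 3, 4, 6, 7, 9, 10, 12, 13} : Finset ℕ) := by
  decide +kernel

theorem lower4 (F : Finset (Grid 2 4)) (hF : IsSaturated Pt F) : 14 ≤ F.card := by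
  classical
  set U : Finset ℕ := (Finset.univ \ F).image enc2 with hU
  have hUmem : ∀ x : Grid 2 4, enc2 x ∈ U ↔ x ∉ F := by
    intro x
    rw [hU, Finset.mem_image]
    constructor
    · rintro ⟨y, hy, hyx⟩
      rw [← enc2_inj hyx]
      simpa using hy
    · intro hx
      exact ⟨x, by simpa using hx, rfl⟩
  have hpriv : ∀ u ∈ U, ∃ C ∈ Cs, u ∈ C ∧ ∀ c ∈ C, c ∈ U → c = u := by
    intro u hu
    rw [hU, Finset.mem_image] at hu
    obtain ⟨f, hf, rfl⟩ := hu
    have hfF : f ∉ F := by simpa using hf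
    obtain ⟨φ, hφ⟩ := hF.2 f hfF
    obtain ⟨C, hC, hCφ⟩ := copy4 φ
    refine ⟨C, hC, ?_, ?_⟩
    · rw [hCφ]
      by_contra hcon
      push Not at hcon
      apply hF.1
      refine ⟨φ, fun x => ?_⟩
      rcases Finset.mem_insert.mp (hφ x) with h | h
      · exact absurd (by rw [h]) (hcon x)
      · exact h
    · intro c hc hcU
      obtain ⟨p, rfl⟩ := (hCφ c).mp hc
      rw [hUmem] at hcU
      rcases Finset.mem_insert.mp (hφ p) with h | h
      · rw [h]
      · exact absurd h hcU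
  have hsub : U ∈ ({1, 3, 4, 6, 7, 9, 10, 12, 13} : Finset ℕ).powerset := by
    rw [Finset.mem_powerset]
    intro u hu
    obtain ⟨C, hC, huC, -⟩ := hpriv u hu
    exact Cs_subset C hC huC
  have h2 := card_private U hsub hpriv
  have h3 : U.card = (Finset.univ \ F).card := Finset.card_image_of_injective _ enc2_inj
  have h4 : (Finset.univ \ F).card = 16 - F.card := by
    rw [← Finset.compl_eq_univ_sdiff, Finset.card_compl]
    simp
  omega

/-- `[4]²` without one point is saturated -/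
theorem sat4 : IsSaturated Pt ((Finset.univ : Finset (Grid 2 4)).filter fun x => enc2 x ≠ 3) := by
  refine ⟨?_, fun f hf => ?_⟩
  · rintro ⟨φ, hφ⟩
    obtain ⟨C, hC, hCφ⟩ := copy4 φ
    have h3 : 3 ∈ C := by
      have : ∀ C ∈ Cs, 3 ∈ C := by decide +kernel
      exact this C hC
    obtain ⟨p, hp⟩ := (hCφ 3).mp h3
    have := hφ p
    simp [hp] at this
  · have hins : insert f ((Finset.univ : Finset (Grid 2 4)).filter fun x => enc2 x ≠ 3) =
        Finset.univ := by
      ext x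
      simp only [Finset.mem_insert, Finset.mem_filter, Finset.mem_univ, true_and, iff_true]
      by_cases h : enc2 x = 3
      · left
        have hf' : enc2 f = 3 := by simpa using hf
        exact enc2_inj (h.trans hf'.symm)
      · exact Or.inr h
    rw [hins]
    refine hasCopy_of_valid enc2 (leb2 4) enc2_le _ [4, 9, 3, 7, 10, 12] (by decide +kernel)
      fun c hc => ?_
    have hc' : c < 4 ^ 2 := by
      have : ∀ c ∈ [4, 9, 3, 7, 10, 12], c < 4 ^ 2 := by decide
      exact this c hc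
    obtain ⟨x, hx⟩ := enc2_surj c hc'
    exact ⟨x, Finset.mem_univ _, hx⟩

theorem embeds4 : Nonempty (Pt ↪o Grid 2 4) := by
  have h := sat4.2 ![3, 0] (by decide +kernel)
  obtain ⟨φ, -⟩ := h
  exact ⟨φ⟩

theorem satStar4 : 14 ≤ satStar Pt 2 4 := by
  have hne : {m | ∃ F : Finset (Grid 2 4), IsSaturated Pt F ∧ F.card = m}.Nonempty :=
    ⟨_, _, sat4, rfl⟩
  obtain ⟨F, hF, hcard⟩ := Nat.sInf_mem hne
  rw [satStar, ← hcard]
  exact lower4 F hF

/-! ### The grid `[5]²` -/

/-- a saturated family in `[5]²` -/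
def L5 : List ℕ := [0, 3, 6, 9, 12, 14, 15, 18, 19, 21, 22, 23, 24]

/-- the copies which prove that it is saturated -/
def W5 : List (List ℕ) :=
  [[], [1, 3, 15, 21, 9, 12], [2, 9, 21, 22, 14, 18], [], [6, 12, 4, 9, 18, 21],
    [5, 15, 3, 9, 21, 12], [], [7, 9, 21, 22, 14, 18], [6, 8, 15, 21, 9, 12], [],
    [10, 21, 9, 14, 22, 18], [11, 21, 9, 14, 22, 18], [], [6, 12, 15, 21, 13, 9], [], [],
    [6, 16, 3, 9, 21, 12], [6, 12, 3, 9, 17, 21], [], [], [6, 9, 20, 21, 14, 18], [], [], [], []]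

theorem satStar5 : satStar Pt 2 5 ≤ 13 := by
  classical
  set F : Finset (Grid 2 5) := Finset.univ.filter fun x => enc2 x ∈ L5 with hF
  have hsat : IsSaturated Pt F := by
    refine saturated_of_table enc2 (leb2 5) enc2_le enc2_surj enc2_lt F L5 (fun x => by simp [hF])
      (by decide +kernel) W5 (by decide +kernel)
  have hcard : F.card ≤ 13 := by
    have h1 : F.card ≤ L5.toFinset.card :=
      Finset.card_le_card_of_injOn enc2 (fun x hx => by
        have : enc2 x ∈ L5 := by simpa [hF] using hx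
        simpa using this) enc2_inj.injOn
    have h2 : L5.toFinset.card = 13 := by decide +kernel
    omega
  have h3 : F.card ∈ {m | ∃ G, IsSaturated Pt G ∧ G.card = m} := ⟨F, hsat, rfl⟩
  exact (Nat.sInf_le h3).trans hcard

/-! ### The grid `[4]³` -/

/-- the code of an element of `[4]³` -/
def enc3 (x : Grid 3 4) : ℕ := x 0 + 4 * x 1 + 16 * x 2

/-- the order on the codes -/
def leb3 (c d : ℕ) : Bool :=
  decide (c % 4 ≤ d % 4) && decide (c / 4 % 4 ≤ d / 4 % 4) && decide (c / 16 ≤ d / 16)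

theorem enc3_0 (x : Grid 3 4) : enc3 x % 4 = x 0 := by
  have h0 := (x 0).2
  rw [enc3]; omega

theorem enc3_1 (x : Grid 3 4) : enc3 x / 4 % 4 = x 1 := by
  have h0 := (x 0).2
  have h1 := (x 1).2
  rw [enc3]; omega

theorem enc3_2 (x : Grid 3 4) : enc3 x / 16 = x 2 := by
  have h0 := (x 0).2
  have h1 := (x 1).2
  rw [enc3]; omega

theorem enc3_le (x y : Grid 3 4) : x ≤ y ↔ leb3 (enc3 x) (enc3 y) = true := by
  rw [leb3, enc3_0, enc3_0, enc3_1, enc3_1, enc3_2, enc3_2, Bool.and_eq_true, Bool.and_eq_true,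
    decide_eq_true_iff, decide_eq_true_iff, decide_eq_true_iff, Pi.le_def]
  constructor
  · intro h
    exact ⟨⟨h 0, h 1⟩, h 2⟩
  · rintro ⟨⟨h0, h1⟩, h2⟩ i
    match i with
    | 0 => exact h0
    | 1 => exact h1
    | 2 => exact h2

theorem enc3_inj : Function.Injective enc3 := by
  intro x y h
  have h0 : (x 0 : ℕ) = y 0 := by rw [← enc3_0, ← enc3_0, h]
  have h1 : (x 1 : ℕ) = y 1 := by rw [← enc3_1, ← enc3_1, h]
  have h2 : (x 2 : ℕ) = y 2 := by rw [← enc3_2, ← enc3_2, h]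
  funext i
  match i with
  | 0 => exact Fin.ext h0
  | 1 => exact Fin.ext h1
  | 2 => exact Fin.ext h2

theorem enc3_lt (x : Grid 3 4) : enc3 x < 4 ^ 3 := by
  have h0 := (x 0).2
  have h1 := (x 1).2
  have h2 := (x 2).2
  rw [enc3]; omega

theorem enc3_surj (c : ℕ) (hc : c < 4 ^ 3) : ∃ x : Grid 3 4, enc3 x = c := by
  refine ⟨![⟨c % 4, by omega⟩, ⟨c / 4 % 4, by omega⟩, ⟨c / 16, by omega⟩], ?_⟩
  rw [enc3]
  simp
  omega

/-- a saturated family in `[4]³` -/
def L43 : List ℕ := [0, 2, 4, 7, 30, 33, 41, 43, 46, 51, 52, 61, 63]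

/-- the copies which prove that it is saturated -/
def W43 : List (List ℕ) :=
  [[], [1, 7, 52, 61, 43, 30], [], [4, 30, 3, 7, 46, 52], [], [5, 7, 52, 61, 43, 30],
    [4, 6, 33, 41, 7, 52], [], [4, 8, 2, 7, 41, 52], [4, 9, 2, 7, 41, 52], [2, 10, 33, 51, 30, 7],
    [2, 7, 33, 51, 11, 30], [2, 7, 12, 30, 43, 51], [2, 7, 13, 30, 43, 51], [2, 14, 33, 51, 30, 7],
    [2, 7, 33, 51, 15, 30], [16, 30, 7, 43, 46, 51], [17, 30, 7, 43, 46, 51], [4, 41, 18, 30, 61, 7],
    [2, 19, 41, 46, 51, 7], [20, 30, 7, 43, 46, 52], [4, 21, 2, 7, 41, 52], [2, 22, 33, 51, 30, 7],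
    [2, 7, 33, 51, 23, 30], [4, 24, 2, 7, 41, 52], [4, 25, 2, 7, 41, 52], [2, 26, 33, 51, 30, 7],
    [2, 7, 33, 51, 27, 30], [2, 7, 28, 30, 43, 51], [2, 7, 29, 30, 43, 51], [],
    [2, 7, 41, 46, 31, 51], [32, 52, 7, 43, 61, 46], [], [4, 52, 34, 43, 61, 30],
    [2, 35, 41, 46, 51, 7], [36, 52, 7, 43, 61, 46], [4, 37, 2, 7, 41, 52], [33, 38, 52, 61, 43, 51],
    [2, 7, 41, 46, 39, 51], [4, 40, 2, 7, 41, 52], [], [33, 42, 52, 61, 43, 51], [],
    [2, 7, 44, 46, 43, 51], [2, 7, 45, 46, 43, 51], [], [33, 43, 52, 61, 47, 51],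
    [2, 7, 48, 51, 43, 30], [2, 7, 49, 51, 43, 30], [2, 50, 41, 43, 51, 30], [], [],
    [4, 52, 2, 7, 53, 41], [2, 7, 52, 54, 43, 30], [2, 30, 52, 55, 46, 43], [4, 52, 2, 7, 56, 41],
    [33, 57, 7, 43, 61, 46], [2, 7, 52, 58, 43, 30], [4, 30, 51, 59, 46, 61], [4, 52, 2, 7, 60, 41],
    [], [2, 7, 52, 62, 43, 51], []]

theorem satStar43 : satStar Pt 3 4 ≤ 13 := by
  classical
  set F : Finset (Grid 3 4) := Finset.univ.filter fun x => enc3 x ∈ L43 with hF
  have hsat : IsSaturated Pt F := by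
    refine saturated_of_table enc3 leb3 enc3_le enc3_surj enc3_lt F L43 (fun x => by simp [hF])
      (by decide +kernel) W43 (by decide +kernel)
  have hcard : F.card ≤ 13 := by
    have h1 : F.card ≤ L43.toFinset.card :=
      Finset.card_le_card_of_injOn enc3 (fun x hx => by
        have : enc3 x ∈ L43 := by simpa [hF] using hx
        simpa using this) enc3_inj.injOn
    have h2 : L43.toFinset.card = 13 := by decide +kernel
    omega
  have h3 : F.card ∈ {m | ∃ G, IsSaturated Pt G ∧ G.card = m} := ⟨F, hsat, rfl⟩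
  exact (Nat.sInf_le h3).trans hcard

/-- There is a finite poset `P` with an induced copy in `[4]²` such that `sat* ([5]², P)` and
`sat* ([4]³, P)` are both smaller than `sat* ([4]², P)`. -/
theorem result : ∃ (P : Type) (_ : PartialOrder P) (_ : Finite P), Nonempty (P ↪o Grid 2 4) ∧
    satStar P 2 5 < satStar P 2 4 ∧ satStar P 3 4 < satStar P 2 4 :=
  ⟨Pt, inferInstance, inferInstance, embeds4, by have := satStar4; have := satStar5; omega,
    by have := satStar4; have := satStar43; omega⟩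

end Pool.Agent.Results.MP_8c6834_co.NotMonotone
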